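import Mathlib
import Pool.Agent.Lib.MP_a3366f_nt.Av.Pos

/-!
For all but a share `ε` of the exponents `t` in any interval of length `X`, the number of
`t`-multipartitions changes parity between `n` and `n + 1` for at least `c X` values `n < X`.
-/

namespace Pool.Agent.Results.MP_a3366f_nt.MostExponents

theorem result : ∀ ε : ℝ, 0 < ε → ∃ c : ℝ, 0 < c ∧ ∃ X₀ : ℕ, ∀ X : ℕ, X₀ ≤ X → ∀ a : ℕ,
    (((Finset.Ico a (a + X)).filter (fun t =>
      (((Finset.range X).filter (fun n =>
        (∑ x ∈ Finset.Nat.antidiagonalTuple t n, ∏ i, Fintype.card (Nat.Partition (x i))) % 2 ≠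
        (∑ x ∈ Finset.Nat.antidiagonalTuple t (n + 1),
          ∏ i, Fintype.card (Nat.Partition (x i))) % 2)).card : ℝ) < c * X)).card : ℝ) ≤ ε * X :=
  fun _ hε => Pool.Agent.Lib.MP_a3366f_nt.Av.pos_main hε

end Pool.Agent.Results.MP_a3366f_nt.MostExponents
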