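import Mathlib
import Pool.Agent.Lib.MP_a3366f_nt.Pr.Count

/-!
For every odd `t`, every modulus `M ≥ 1` and every residue class `B` modulo `M`, the number of
`n < X` in that class for which the number of `t`-multipartitions of `n` is odd is at least a
constant times `X ^ (4 / 5) / log X`.
-/

namespace Pool.Agent.Results.MP_a3366f_nt.OddFourFifths

theorem result : ∀ t : ℕ, Odd t → ∀ M B : ℕ, 1 ≤ M → ∃ c : ℝ, 0 < c ∧ ∃ X₀ : ℕ, ∀ X : ℕ, X₀ ≤ X →
    c * ((X : ℝ) ^ (4 / 5 : ℝ) / Real.log X) ≤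
      (((Finset.range X).filter (fun n => n ≡ B [MOD M] ∧
        (∑ x ∈ Finset.Nat.antidiagonalTuple t n,
          ∏ i, Fintype.card (Nat.Partition (x i))) % 2 = 1)).card : ℝ) :=
  fun _ ht _ B hM =>
    Pool.Agent.Lib.MP_a3366f_nt.Quad.Prog.count_prog ht (by norm_num) (by omega) B

end Pool.Agent.Results.MP_a3366f_nt.OddFourFifths
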